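import Pool.Agent.Lib.MP_1cd210_co.Final
import Pool.Agent.Lib.MP_1cd210_co.Lower

/-!
# The maximum oriented diameter of graphs of diameter `d` is `d ^ 2 / 2 + O (d log d)`

For every `d ≥ 1` the maximum `F` of the oriented diameters of all finite connected graphs of
diameter `d` without cut-edges exists, and
`d ^ 2 / 2 + d ≤ F ≤ d ^ 2 / 2 + 10 d log_3 d + 17 d`.
-/

namespace Pool.Agent.Results.MP_1cd210_co.Asymptotics

open Pool.Agent.Lib.MP_1cd210_co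

theorem result (d : ℕ) (hd : 1 ≤ d) :
    ∃ F : ℕ,
      IsGreatest {k : ℕ | ∃ (n : ℕ) (G : SimpleGraph (Fin n)), G.Connected ∧ Bridgeless G ∧
        G.diam = d ∧ IsLeast {j : ℕ | OrientedDiamLE G j} k} F ∧
      (d : ℝ) ^ 2 / 2 + d ≤ F ∧
      (F : ℝ) ≤ (d : ℝ) ^ 2 / 2 + 10 * d * Real.logb 3 d + 17 * d := by
  obtain ⟨h1, h2⟩ := bounds_of_lower hd (lower d hd)
  have hset : {k : ℕ | ∃ (n : ℕ) (G : SimpleGraph (Fin n)), G.Connected ∧ Bridgeless G ∧
        G.diam = d ∧ IsLeast {j : ℕ | OrientedDiamLE G j} k}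
      = {k : ℕ | ∃ (n : ℕ) (G : SimpleGraph (Fin n)), G.Connected ∧ Bridgeless G ∧
        G.diam = d ∧ orientedDiam G = k} := by
    ext k
    constructor
    · rintro ⟨n, G, hG, hb, hdiam, hk⟩
      refine ⟨n, G, hG, hb, hdiam, ?_⟩
      exact le_antisymm (Nat.sInf_le hk.1) (hk.2 (orientedDiam_spec hG hb hd hdiam).1)
    · rintro ⟨n, G, hG, hb, hdiam, rfl⟩
      exact ⟨n, G, hG, hb, hdiam, (orientedDiam_spec hG hb hd hdiam).1,
        fun j hj => Nat.sInf_le hj⟩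
  have hbd : BddAbove {k : ℕ | ∃ (n : ℕ) (G : SimpleGraph (Fin n)), G.Connected ∧
      Bridgeless G ∧ G.diam = d ∧ orientedDiam G = k} := by
    refine ⟨d ^ 2 + 34 * d + 20 * (d * Nat.log 3 d), ?_⟩
    rintro k ⟨n, G, hG, hb, hdiam, rfl⟩
    have := (orientedDiam_spec hG hb hd hdiam).2
    omega
  have hne : {k : ℕ | ∃ (n : ℕ) (G : SimpleGraph (Fin n)), G.Connected ∧
      Bridgeless G ∧ G.diam = d ∧ orientedDiam G = k}.Nonempty := by
    obtain ⟨n, G, hG, hb, hdiam, -⟩ := lower d hd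
    exact ⟨_, n, G, hG, hb, hdiam, rfl⟩
  refine ⟨maxOrientedDiam d, ?_, h1, h2⟩
  rw [hset]
  exact ⟨Nat.sSup_mem hne hbd, fun k hk => le_csSup hbd hk⟩

end Pool.Agent.Results.MP_1cd210_co.Asymptotics
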